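import Pool.Agent.helper52.IR.Spec

/-!
# MP_07c750_an, project IR, row CEL: few bad cells
-/

open scoped MatrixGroups ContDiff Topology UpperHalfPlane ComplexConjugate
open UpperHalfPlane MeasureTheory Filter Set

set_option autoImplicit false

namespace Pool.Agent.IR

open Pool.Agent.RS

noncomputable section

theorem CEL_ps_cont (P : Finset ℤ) : Continuous (ps P) := by
  unfold ps
  refine continuous_finsetSum _ (fun p _ => ?_)
  exact Complex.continuous_exp.comp ((Complex.continuous_ofReal.comp (continuous_const.mul continuous_id)).mul continuous_const)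

theorem CEL_ps_bd (P : Finset ℤ) (s : ℝ) : ‖ps P s‖ ≤ P.card := by
  unfold ps
  refine (norm_sum_le _ _).trans ?_
  rw [Finset.card_eq_sum_ones, Nat.cast_sum]
  refine Finset.sum_le_sum (fun p _ => ?_)
  rw [Complex.norm_exp_ofReal_mul_I]
  simp

/-- the product for two blocks -/
def CEL_h (P P' : Finset ℤ) (x x' w u : ℝ) : ℝ := ‖ps P (om w x * u)‖ ^ 2 * ‖ps P' (om w x' * u)‖ ^ 2

theorem CEL_h0 (P P' : Finset ℤ) (x x' w u : ℝ) : 0 ≤ CEL_h P P' x x' w u := by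
  unfold CEL_h
  positivity

theorem CEL_hb (P P' : Finset ℤ) (x x' w u : ℝ) : CEL_h P P' x x' w u ≤ (P.card : ℝ) ^ 2 * (P'.card : ℝ) ^ 2 := by
  unfold CEL_h
  exact mul_le_mul (pow_le_pow_left₀ (norm_nonneg _) (CEL_ps_bd _ _) 2) (pow_le_pow_left₀ (norm_nonneg _) (CEL_ps_bd _ _) 2)
    (by positivity) (by positivity)

theorem CEL_om (x : ℝ) : Measurable (fun p : ℝ × ℝ => om p.1 x * p.2) := by
  unfold om
  fun_prop

theorem CEL_hm (P P' : Finset ℤ) (x x' : ℝ) : Measurable (fun p : ℝ × ℝ => CEL_h P P' x x' p.1 p.2) := by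
  unfold CEL_h
  exact (((CEL_ps_cont P).measurable.comp (CEL_om x)).norm.pow_const 2).mul (((CEL_ps_cont P').measurable.comp (CEL_om x')).norm.pow_const 2)

/-- the domain of `u` -/
def CEL_U (θ0 : ℝ) : Set ℝ := {u : ℝ | θ0 / 2 ≤ |u| ∧ |u| ≤ 8}

theorem CEL_Um (θ0 : ℝ) : MeasurableSet (CEL_U θ0) :=
  (measurableSet_le measurable_const measurable_norm).inter (measurableSet_le measurable_norm measurable_const)

theorem CEL_Us (θ0 : ℝ) : CEL_U θ0 ⊆ {u : ℝ | |u| ≤ 8} := fun _ hu => hu.2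

theorem CEL_8 : {u : ℝ | |u| ≤ 8} = Icc (-8) 8 := by
  ext u
  rw [mem_ofPred_eq, mem_Icc, abs_le]

theorem CEL_Uf (θ0 : ℝ) : volume (CEL_U θ0) < ⊤ := by
  refine (measure_mono (CEL_Us θ0)).trans_lt ?_
  rw [CEL_8, Real.volume_Icc]
  exact ENNReal.ofReal_lt_top

/-- integrability of the inner functions -/
theorem CEL_inner (g : ℝ × ℝ → ℝ) (hg : Measurable g) (K : ℝ) (hK : ∀ p, |g p| ≤ K) (w : ℝ) (U : Set ℝ) (hU : volume U < ⊤) :
    IntegrableOn (fun u => g (w, u)) U := by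
  haveI : IsFiniteMeasure (volume.restrict U) := ⟨by rwa [Measure.restrict_apply_univ]⟩
  refine Integrable.of_bound (C := K) (hg.comp (measurable_const.prodMk measurable_id)).aestronglyMeasurable (Eventually.of_forall fun u => ?_)
  rw [Real.norm_eq_abs]
  exact hK _

/-- integrability of the outer function -/
theorem CEL_outer (g : ℝ × ℝ → ℝ) (hg : Measurable g) (K : ℝ) (hK : ∀ p, |g p| ≤ K) (a b : ℝ) (U : Set ℝ) (hU : volume U < ⊤) :
    IntegrableOn (fun w => ∫ u in U, g (w, u)) (Icc a b) := by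
  haveI : IsFiniteMeasure (volume.restrict U) := ⟨by rwa [Measure.restrict_apply_univ]⟩
  haveI : IsFiniteMeasure ((volume : Measure ℝ).restrict (Icc a b)) := ⟨by
    rw [Measure.restrict_apply_univ, Real.volume_Icc]
    exact ENNReal.ofReal_lt_top⟩
  have h1 : Integrable g (((volume : Measure ℝ).restrict (Icc a b)).prod (volume.restrict U)) := by
    refine Integrable.of_bound (C := K) hg.aestronglyMeasurable (Eventually.of_forall fun p => ?_)
    rw [Real.norm_eq_abs]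
    exact hK _
  exact h1.integral_prod_left

/-- the sum over a set of pairs -/
def CEL_g (Z : Finset (ℤ × ℤ)) (P : ℤ → Finset ℤ) (X : ℤ → ℝ) (p : ℝ × ℝ) : ℝ := ∑ q ∈ Z, CEL_h (P q.1) (P q.2) (X q.1) (X q.2) p.1 p.2

theorem CEL_gm (Z : Finset (ℤ × ℤ)) (P : ℤ → Finset ℤ) (X : ℤ → ℝ) : Measurable (CEL_g Z P X) := by
  unfold CEL_g
  exact Finset.measurable_fun_sum _ (fun q _ => CEL_hm _ _ _ _)

theorem CEL_g0 (Z : Finset (ℤ × ℤ)) (P : ℤ → Finset ℤ) (X : ℤ → ℝ) (p : ℝ × ℝ) : 0 ≤ CEL_g Z P X p :=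
  Finset.sum_nonneg (fun _ _ => CEL_h0 _ _ _ _ _ _)

theorem CEL_gb (Z : Finset (ℤ × ℤ)) (P : ℤ → Finset ℤ) (X : ℤ → ℝ) : ∃ K : ℝ, ∀ p, |CEL_g Z P X p| ≤ K := by
  refine ⟨∑ q ∈ Z, ((P q.1).card : ℝ) ^ 2 * ((P q.2).card : ℝ) ^ 2, fun p => ?_⟩
  rw [abs_of_nonneg (CEL_g0 _ _ _ _)]
  exact Finset.sum_le_sum (fun q _ => CEL_hb _ _ _ _ _ _)

theorem CEL_hbs (P P' : Finset ℤ) (x x' : ℝ) (p : ℝ × ℝ) : |CEL_h P P' x x' p.1 p.2| ≤ (P.card : ℝ) ^ 2 * (P'.card : ℝ) ^ 2 := by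
  rw [abs_of_nonneg (CEL_h0 _ _ _ _ _ _)]
  exact CEL_hb _ _ _ _ _ _

theorem CEL_proof (hPAV : PAV_stmt) (hNPR : NPR_stmt) : CEL_stmt := by
  obtain ⟨C2, hC2, HP⟩ := hPAV
  obtain ⟨C1, hC1, HN⟩ := hNPR
  refine ⟨max C1 C2, lt_max_of_lt_left hC1, ?_⟩
  intro S P X M M1 F ϑ θ0 R L hS hϑ hϑ1 hθ hθ1 hR hL
  classical
  have hM0 : 0 ≤ M := (Nat.cast_nonneg _).trans hS.m0
  have hL0 : (0 : ℝ) < L := by exact_mod_cast hL
  obtain ⟨near, hnear⟩ : ∃ Z : Finset (ℤ × ℤ), Z = (S ×ˢ S).filter (fun q => |X q.2 - X q.1| < ϑ) := ⟨_, rfl⟩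
  obtain ⟨far, hfar⟩ : ∃ Z : Finset (ℤ × ℤ), Z = (S ×ˢ S).filter (fun q => ¬ |X q.2 - X q.1| < ϑ) := ⟨_, rfl⟩
  obtain ⟨I, hI⟩ : ∃ I : Set ℝ, I = Icc (-(1 / 16) : ℝ) (1 / 16) := ⟨_, rfl⟩
  have hGG : ∀ w u, GG S P X w u ^ 2 = CEL_g near P X (w, u) + CEL_g far P X (w, u) := by
    intro w u
    unfold CEL_g
    rw [hnear, hfar, Finset.sum_filter_add_sum_filter_not, Finset.sum_product, sq]
    unfold GG
    rw [Finset.sum_mul_sum]
    rfl
  obtain ⟨Kn, hKn⟩ := CEL_gb near P X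
  obtain ⟨Kf, hKf⟩ := CEL_gb far P X
  have hUf := CEL_Uf θ0
  -- near pairs
  have hncard : (near.card : ℝ) ≤ M * M1 := by
    have h1 : near.card = ∑ i ∈ S, (S.filter (fun i' => |X i' - X i| < ϑ)).card := by
      rw [hnear, Finset.card_filter, Finset.sum_product]
      refine Finset.sum_congr rfl (fun i _ => ?_)
      rw [Finset.card_filter]
    rw [h1, Nat.cast_sum]
    calc ∑ i ∈ S, (((S.filter (fun i' => |X i' - X i| < ϑ)).card : ℕ) : ℝ) ≤ ∑ i ∈ S, M1 := Finset.sum_le_sum (fun i hi => hS.m1 i hi)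
      _ = (S.card : ℝ) * M1 := by rw [Finset.sum_const, nsmul_eq_mul]
      _ ≤ M * M1 := mul_le_mul_of_nonneg_right hS.m0 hS.n1
  have hfcard : (far.card : ℝ) ≤ M ^ 2 := by
    have h1 : far.card ≤ (S ×ˢ S).card := by
      rw [hfar]
      exact Finset.card_filter_le _ _
    rw [Finset.card_product] at h1
    calc (far.card : ℝ) ≤ ((S.card * S.card : ℕ) : ℝ) := by exact_mod_cast h1
      _ = (S.card : ℝ) ^ 2 := by push_cast; ring
      _ ≤ M ^ 2 := pow_le_pow_left₀ (Nat.cast_nonneg _) hS.m0 2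
  have hA : ∀ w ∈ I, ∫ u in CEL_U θ0, CEL_g near P X (w, u) ≤ C1 * (M * M1 * F ^ 3) := by
    intro w hw
    rw [hI, mem_Icc] at hw
    have hw' : |w| ≤ 1 / 16 := abs_le.2 hw
    unfold CEL_g
    rw [integral_finsetSum _ (fun q _ => CEL_inner _ (CEL_hm _ _ _ _) _ (CEL_hbs _ _ _ _) w _ hUf)]
    calc ∑ q ∈ near, ∫ u in CEL_U θ0, CEL_h (P q.1) (P q.2) (X q.1) (X q.2) w u ≤ ∑ q ∈ near, C1 * F ^ 3 := by
          refine Finset.sum_le_sum (fun q hq => ?_)
          rw [hnear, Finset.mem_filter, Finset.mem_product] at hq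
          have h1 : ∫ u in CEL_U θ0, CEL_h (P q.1) (P q.2) (X q.1) (X q.2) w u ≤ ∫ u in {u : ℝ | |u| ≤ 8}, CEL_h (P q.1) (P q.2) (X q.1) (X q.2) w u := by
            refine setIntegral_mono_set (CEL_inner _ (CEL_hm _ _ _ _) _ (CEL_hbs _ _ _ _) w _ ?_) ?_ ?_
            · rw [CEL_8, Real.volume_Icc]
              exact ENNReal.ofReal_lt_top
            · exact Eventually.of_forall fun u => CEL_h0 _ _ _ _ _ _
            · exact Eventually.of_forall fun u hu => CEL_Us θ0 hu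
          refine h1.trans ((HN (P q.1) (P q.2) (X q.1) (X q.2) w (hS.x0 _ hq.1.1) (hS.x0 _ hq.1.2) hw').trans ?_)
          refine mul_le_mul_of_nonneg_left ?_ hC1.le
          calc ((P q.1).card : ℝ) ^ 2 * (P q.2).card ≤ F ^ 2 * F := mul_le_mul (pow_le_pow_left₀ (Nat.cast_nonneg _) (hS.f0 _ hq.1.1) 2) (hS.f0 _ hq.1.2)
                (Nat.cast_nonneg _) (pow_nonneg hS.n2 2)
            _ = F ^ 3 := by ring
      _ = near.card * (C1 * F ^ 3) := by rw [Finset.sum_const, nsmul_eq_mul]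
      _ ≤ M * M1 * (C1 * F ^ 3) := mul_le_mul_of_nonneg_right hncard (mul_nonneg hC1.le (pow_nonneg hS.n2 3))
      _ = C1 * (M * M1 * F ^ 3) := by ring
  -- far pairs
  obtain ⟨T, hT⟩ : ∃ T : ℝ, T = C2 * (M ^ 2 * F ^ 2) / (ϑ * θ0) := ⟨_, rfl⟩
  have hT0 : 0 ≤ T := by
    rw [hT]
    positivity
  have hB : ∫ w in I, ∫ u in CEL_U θ0, CEL_g far P X (w, u) ≤ T := by
    have h1 : ∀ w, ∫ u in CEL_U θ0, CEL_g far P X (w, u) = ∑ q ∈ far, ∫ u in CEL_U θ0, CEL_h (P q.1) (P q.2) (X q.1) (X q.2) w u := by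
      intro w
      unfold CEL_g
      exact integral_finsetSum _ (fun q _ => CEL_inner _ (CEL_hm _ _ _ _) _ (CEL_hbs _ _ _ _) w _ hUf)
    simp only [h1]
    rw [hI, integral_finsetSum _ (fun q _ => CEL_outer _ (CEL_hm _ _ _ _) _ (CEL_hbs _ _ _ _) _ _ _ hUf)]
    calc ∑ q ∈ far, ∫ w in Icc (-(1 / 16) : ℝ) (1 / 16), ∫ u in CEL_U θ0, CEL_h (P q.1) (P q.2) (X q.1) (X q.2) w u ≤ ∑ q ∈ far, C2 * F ^ 2 / (ϑ * θ0) := by
          refine Finset.sum_le_sum (fun q hq => ?_)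
          rw [hfar, Finset.mem_filter, Finset.mem_product, not_lt] at hq
          have hd : ϑ ≤ |X q.1 - X q.2| := by rw [abs_sub_comm]; exact hq.2
          have hne : X q.1 ≠ X q.2 := by
            intro h
            rw [h, sub_self, abs_zero] at hd
            linarith
          refine (HP (P q.1) (P q.2) (X q.1) (X q.2) θ0 (hS.x0 _ hq.1.1) (hS.x0 _ hq.1.2) hne hθ hθ1).trans ?_
          have h2 : ((P q.1).card : ℝ) * (P q.2).card ≤ F ^ 2 := by
            rw [sq]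
            exact mul_le_mul (hS.f0 _ hq.1.1) (hS.f0 _ hq.1.2) (Nat.cast_nonneg _) hS.n2
          refine div_le_div₀ (mul_nonneg hC2.le (pow_nonneg hS.n2 2)) (mul_le_mul_of_nonneg_left h2 hC2.le) (mul_pos hϑ hθ)
            (mul_le_mul_of_nonneg_right hd hθ.le)
      _ = far.card * (C2 * F ^ 2 / (ϑ * θ0)) := by rw [Finset.sum_const, nsmul_eq_mul]
      _ ≤ M ^ 2 * (C2 * F ^ 2 / (ϑ * θ0)) := by
          refine mul_le_mul_of_nonneg_right hfcard ?_
          have := hS.n2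
          positivity
      _ = T := by rw [hT]; ring
  obtain ⟨B, hBd⟩ : ∃ B : ℝ → ℝ, B = fun w => ∫ u in CEL_U θ0, CEL_g far P X (w, u) := ⟨_, rfl⟩
  have hB0 : ∀ w, 0 ≤ B w := by
    intro w
    rw [hBd]
    exact integral_nonneg (fun u => CEL_g0 _ _ _ _)
  have hBi : ∀ a b : ℝ, IntegrableOn B (Icc a b) := by
    intro a b
    rw [hBd]
    exact CEL_outer _ (CEL_gm _ _ _) _ hKf _ _ _ hUf
  have hBT : ∫ w in I, B w ≤ T := by
    rw [hBd]
    exact hB
  obtain ⟨Q, hQ⟩ : ∃ Q : Finset ℤ, ∀ k, k ∈ Q ↔ (16 * (|k| + 1) ≤ (L : ℤ) ∧ T / R < ∫ w in Icc ((k : ℝ) / L) ((k + 1) / L), B w) := by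
    refine ⟨(Finset.Icc (-(L : ℤ)) L).filter (fun k => 16 * (|k| + 1) ≤ (L : ℤ) ∧ T / R < ∫ w in Icc ((k : ℝ) / L) ((k + 1) / L), B w), fun k => ?_⟩
    rw [Finset.mem_filter, Finset.mem_Icc]
    constructor
    · exact fun h => h.2
    · intro h
      have h1 := abs_nonneg k
      have h2 : |k| ≤ L := by linarith [h.1]
      exact ⟨abs_le.1 h2, h⟩
  have hcell : ∀ k : ℤ, 16 * (|k| + 1) ≤ (L : ℤ) → Icc ((k : ℝ) / L) ((k + 1) / L) ⊆ I := by
    intro k hk x hx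
    have h1 : (16 : ℝ) * (|(k : ℝ)| + 1) ≤ L := by exact_mod_cast hk
    rw [hI, mem_Icc]
    rw [mem_Icc] at hx
    have h2 := abs_le.1 (le_refl |(k : ℝ)|)
    constructor
    · refine le_trans ?_ hx.1
      rw [le_div_iff₀ hL0]
      linarith [h2.1]
    · refine hx.2.trans ?_
      rw [div_le_iff₀ hL0]
      linarith [h2.2]
  refine ⟨Q, ?_, fun k hk hkQ => ?_⟩
  · -- the number of bad cells
    have hsum : ∑ k ∈ Q, ∫ w in Icc ((k : ℝ) / L) ((k + 1) / L), B w ≤ T := by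
      have h1 : ∀ k ∈ Q, ∫ w in Icc ((k : ℝ) / L) ((k + 1) / L), B w = ∫ w in Ioc ((k : ℝ) / L) ((k + 1) / L), B w :=
        fun k _ => integral_Icc_eq_integral_Ioc
      rw [Finset.sum_congr rfl h1, ← integral_biUnion_finset Q (fun k _ => measurableSet_Ioc) ?_ (fun k _ => (hBi _ _).mono_set Ioc_subset_Icc_self)]
      · refine le_trans (setIntegral_mono_set ?_ (Eventually.of_forall fun w => hB0 w) (Eventually.of_forall fun w hw => ?_)) hBT
        · rw [hI]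
          exact hBi _ _
        · have hw' : w ∈ ⋃ k ∈ Q, Ioc ((k : ℝ) / L) ((k + 1) / L) := hw
          rw [mem_iUnion₂] at hw'
          obtain ⟨k, hk, hwk⟩ := hw'
          exact hcell k ((hQ k).1 hk).1 (Ioc_subset_Icc_self hwk)
      · intro k _ k' _ hkk'
        refine Set.disjoint_left.2 (fun x hx hx' => hkk' ?_)
        rw [mem_Ioc, div_lt_iff₀ hL0, le_div_iff₀ hL0] at hx hx'
        have h3 : (k : ℝ) < k' + 1 := lt_of_lt_of_le hx.1 hx'.2
        have h4 : (k' : ℝ) < k + 1 := lt_of_lt_of_le hx'.1 hx.2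
        have h5 : k < k' + 1 := by exact_mod_cast h3
        have h6 : k' < k + 1 := by exact_mod_cast h4
        omega
    rcases Finset.eq_empty_or_nonempty Q with hQe | hQn
    · rw [hQe, Finset.card_empty, Nat.cast_zero]
      linarith
    · have h2 : ∑ k ∈ Q, T / R < ∑ k ∈ Q, ∫ w in Icc ((k : ℝ) / L) ((k + 1) / L), B w := Finset.sum_lt_sum_of_nonempty hQn (fun k hk => ((hQ k).1 hk).2)
      rw [Finset.sum_const, nsmul_eq_mul] at h2
      have h3 : (Q.card : ℝ) * (T / R) < T := h2.trans_le hsum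
      have hR0 : 0 < R := by linarith
      by_contra hlt
      rw [not_le] at hlt
      have h4 : R * (T / R) ≤ Q.card * (T / R) := mul_le_mul_of_nonneg_right hlt.le (div_nonneg hT0 hR0.le)
      rw [mul_div_cancel₀ _ hR0.ne'] at h4
      linarith
  · -- the good cells
    have hkB : ∫ w in Icc ((k : ℝ) / L) ((k + 1) / L), B w ≤ T / R := by
      by_contra hlt
      rw [not_le] at hlt
      exact hkQ ((hQ k).2 ⟨hk, hlt⟩)
    have hAi : IntegrableOn (fun w => ∫ u in CEL_U θ0, CEL_g near P X (w, u)) (Icc ((k : ℝ) / L) ((k + 1) / L)) :=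
      CEL_outer _ (CEL_gm _ _ _) _ hKn _ _ _ hUf
    have hkA : ∫ w in Icc ((k : ℝ) / L) ((k + 1) / L), ∫ u in CEL_U θ0, CEL_g near P X (w, u) ≤ 1 / L * (C1 * (M * M1 * F ^ 3)) := by
      have h1 : ∫ w in Icc ((k : ℝ) / L) ((k + 1) / L), ∫ u in CEL_U θ0, CEL_g near P X (w, u) ≤
          ∫ w in Icc ((k : ℝ) / L) ((k + 1) / L), C1 * (M * M1 * F ^ 3) := by
        refine setIntegral_mono_on hAi ?_ measurableSet_Icc (fun w hw => hA w (hcell k hk hw))
        exact integrableOn_const (by rw [Real.volume_Icc]; exact ENNReal.ofReal_ne_top)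
      refine h1.trans (le_of_eq ?_)
      rw [setIntegral_const, smul_eq_mul, Real.volume_real_Icc_of_le (by
        refine div_le_div_of_nonneg_right ?_ hL0.le
        linarith)]
      congr 1
      field_simp
      ring
    have hdec : ∫ w in Icc ((k : ℝ) / L) ((k + 1) / L), ∫ u in {u : ℝ | θ0 / 2 ≤ |u| ∧ |u| ≤ 8}, GG S P X w u ^ 2 =
        (∫ w in Icc ((k : ℝ) / L) ((k + 1) / L), ∫ u in CEL_U θ0, CEL_g near P X (w, u)) + ∫ w in Icc ((k : ℝ) / L) ((k + 1) / L), B w := by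
      rw [← integral_add hAi (hBi _ _)]
      refine setIntegral_congr_fun measurableSet_Icc (fun w _ => ?_)
      show ∫ u in CEL_U θ0, GG S P X w u ^ 2 = (∫ u in CEL_U θ0, CEL_g near P X (w, u)) + B w
      rw [hBd]
      simp only [hGG]
      exact integral_add (CEL_inner _ (CEL_gm _ _ _) _ hKn w _ hUf) (CEL_inner _ (CEL_gm _ _ _) _ hKf w _ hUf)
    rw [hdec]
    have hn2 := hS.n2
    have hn1 := hS.n1
    have h5 : T / R = 1 / L * (C2 * (M ^ 2 * F ^ 2 * L / (θ0 * ϑ * R))) := by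
      have hR0 : R ≠ 0 := by linarith
      rw [hT]
      field_simp
    rw [h5] at hkB
    have h6 : C1 * (M * M1 * F ^ 3) ≤ max C1 C2 * (M * M1 * F ^ 3) := mul_le_mul_of_nonneg_right (le_max_left _ _) (by positivity)
    have h7 : C2 * (M ^ 2 * F ^ 2 * L / (θ0 * ϑ * R)) ≤ max C1 C2 * (M ^ 2 * F ^ 2 * L / (θ0 * ϑ * R)) :=
      mul_le_mul_of_nonneg_right (le_max_right _ _) (by positivity)
    have h8 : 1 / (L : ℝ) * (C1 * (M * M1 * F ^ 3)) ≤ 1 / L * (max C1 C2 * (M * M1 * F ^ 3)) := mul_le_mul_of_nonneg_left h6 (by positivity)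
    have h9 : 1 / (L : ℝ) * (C2 * (M ^ 2 * F ^ 2 * L / (θ0 * ϑ * R))) ≤ 1 / L * (max C1 C2 * (M ^ 2 * F ^ 2 * L / (θ0 * ϑ * R))) :=
      mul_le_mul_of_nonneg_left h7 (by positivity)
    calc _ ≤ 1 / (L : ℝ) * (max C1 C2 * (M * M1 * F ^ 3)) + 1 / L * (max C1 C2 * (M ^ 2 * F ^ 2 * L / (θ0 * ϑ * R))) :=
          add_le_add (hkA.trans h8) (hkB.trans h9)
      _ = max C1 C2 / L * (M ^ 2 * F ^ 2 * L / (θ0 * ϑ * R) + M * M1 * F ^ 3) := by ring

end

end Pool.Agent.IR
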